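import Mathlib

/-!
# The multiplicity of regular curve germs through a point of the Monster tower

The Monster (Semple) tower `P^k(n)` over `ℂ^n` is described by its standard charts. The charts of
`P^k(n)` are indexed by `I : Fin k → Fin n`; the chart `I` has coordinates
`a^0, a^1, ..., a^k ∈ ℂ^n` with `a^(m+1)_(I m) = a^m_(I m)`, and `Δ_m` has the coframe
`d a^m_1, ..., d a^m_n`. In this coframe the line `ℓ` of the point at level `m + 1` is spanned by the
vector with the component `1` at `I m` and the components `a^(m+1)_j`, `j ≠ I m`, so that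
`a^(m+1)_j = d a^m_j / d a^m_(I m)` on `ℓ`. The vertical hyperplane at level `m + 1` is
`d a^(m+1)_(I m) = 0`, and it stays a critical hyperplane, given by the same component, as long as
the lines of the following levels are contained in it.
-/

set_option autoImplicit false

namespace Pool.Agent.Results.MP_32880b_ag.MultiplicityWellDefined

open Filter Topology

/-- The points of `P^k(n)` in the chart `I`. -/
def chart {n k : ℕ} (I : Fin k → Fin n) : Set (Fin (k + 1) → Fin n → ℂ) :=
  {p | ∀ m : Fin k, p m.succ (I m) = p m.castSucc (I m)}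

/-- `A` is the `k`-th prolongation `γ^k` of the germ `γ` in the chart `I`: it is analytic, starts
with `γ`, and for every level `m` the function `A^m_(I m)` is not constant (its derivative is not
zero away from `t = 0`), `A^(m+1)_(I m) = A^m_(I m)`, and `A^(m+1)_j` is the analytic extension of
the quotient `(A^m_j)' / (A^m_(I m))'` for `j ≠ I m`. -/
structure IsProlongation {n k : ℕ} (I : Fin k → Fin n) (γ : ℂ → Fin n → ℂ)
    (A : ℂ → Fin (k + 1) → Fin n → ℂ) : Prop where
  analytic : AnalyticAt ℂ A 0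
  base : ∀ᶠ t in 𝓝 0, A t 0 = γ t
  nonconst : ∀ m : Fin k, ¬ ∀ᶠ t in 𝓝 0, deriv (fun s => A s m.castSucc (I m)) t = 0
  keep : ∀ m : Fin k, ∀ᶠ t in 𝓝 0, A t m.succ (I m) = A t m.castSucc (I m)
  quot : ∀ (m : Fin k) (j : Fin n), j ≠ I m → ∀ᶠ t in 𝓝 0,
    deriv (fun s => A s m.castSucc j) t
      = A t m.succ j * deriv (fun s => A s m.castSucc (I m)) t

/-- The fibre through the point at level `j + 1` gives a critical hyperplane at `p`, namely
`d a^k_(I j) = 0`: for all later levels `m + 1` the line is contained in the hyperplane given by the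
component `I j`. -/
def IsCritical {n k : ℕ} (I : Fin k → Fin n) (p : Fin (k + 1) → Fin n → ℂ) (j : Fin k) : Prop :=
  ∀ m : Fin k, j < m → I m ≠ I j ∧ p m.succ (I j) = 0

/-- The curve `A` in the chart `I` of `P^k(n)` is immersed at `0` and its tangent line is not
contained in a critical hyperplane. -/
def IsRegularAt {n k : ℕ} (I : Fin k → Fin n) (A : ℂ → Fin (k + 1) → Fin n → ℂ) : Prop :=
  (∃ c, deriv (fun s => A s (Fin.last k) c) 0 ≠ 0) ∧
    ∀ j, IsCritical I (A 0) j → deriv (fun s => A s (Fin.last k) (I j)) 0 ≠ 0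

/-- `Germ(p)` for the point `p` of `P^k(n)` in the chart `I`: the non-constant analytic germs `γ`
with `γ^k(0) = p` and `γ^k` regular at `0`. -/
def Germ {n k : ℕ} (I : Fin k → Fin n) (p : Fin (k + 1) → Fin n → ℂ) : Set (ℂ → Fin n → ℂ) :=
  {γ | AnalyticAt ℂ γ 0 ∧ (¬ ∀ᶠ t in 𝓝 0, γ t = γ 0) ∧
    ∃ A, IsProlongation I γ A ∧ A 0 = p ∧ IsRegularAt I A}

/-- The multiplicity of a germ: the least order at `0` of its centred coordinate functions. -/
noncomputable def mult {n : ℕ} (γ : ℂ → Fin n → ℂ) : ℕ∞ :=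
  ⨅ i, analyticOrderAt (fun t => γ t i - γ 0 i) 0

section Proof

variable {n k : ℕ} {I : Fin k → Fin n} {γ : ℂ → Fin n → ℂ} {A : ℂ → Fin (k + 1) → Fin n → ℂ}

/-- The order of the derivative of a coordinate. -/
noncomputable def ordD (A : ℂ → Fin (k + 1) → Fin n → ℂ) (m : Fin (k + 1)) (j : Fin n) : ℕ∞ :=
  analyticOrderAt (deriv fun s => A s m j) 0

theorem IsProlongation.coord (h : IsProlongation I γ A) (m : Fin (k + 1)) (j : Fin n) :
    AnalyticAt ℂ (fun s => A s m j) 0 :=
  (analyticAt_pi_iff.1 ((analyticAt_pi_iff.1 h.analytic) m)) j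

theorem IsProlongation.ordD_keep (h : IsProlongation I γ A) (m : Fin k) :
    ordD A m.succ (I m) = ordD A m.castSucc (I m) :=
  analyticOrderAt_congr (EventuallyEq.deriv (h.keep m))

theorem IsProlongation.ordD_quot (h : IsProlongation I γ A) (m : Fin k) {j : Fin n}
    (hj : j ≠ I m) : ordD A m.castSucc j
      = analyticOrderAt (fun s => A s m.succ j) 0 + ordD A m.castSucc (I m) := by
  have h1 : ordD A m.castSucc j = analyticOrderAt
      ((fun s => A s m.succ j) * deriv fun s => A s m.castSucc (I m)) 0 :=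
    analyticOrderAt_congr (h.quot m j hj)
  rw [h1, analyticOrderAt_mul (h.coord _ _) (h.coord _ _).deriv]
  rfl

theorem IsProlongation.ordD_of_ne (h : IsProlongation I γ A) (m : Fin k) {j : Fin n}
    (hj : j ≠ I m) (h0 : A 0 m.succ j ≠ 0) : ordD A m.castSucc j = ordD A m.succ (I m) := by
  rw [h.ordD_quot m hj, (h.coord _ _).analyticOrderAt_eq_zero.2 h0, zero_add, h.ordD_keep]

theorem IsProlongation.ordD_of_eq (h : IsProlongation I γ A) (m : Fin k) {j : Fin n}
    (hj : j ≠ I m) (h0 : A 0 m.succ j = 0) :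
    ordD A m.castSucc j = ordD A m.succ j + 1 + ordD A m.succ (I m) := by
  rw [h.ordD_quot m hj, h.ordD_keep]
  congr 1
  have h1 := (h.coord m.succ j).analyticOrderAt_deriv_add_one
  rw [ordD, h1]
  simp only [h0, sub_zero]

theorem IsProlongation.ordD_le (h : IsProlongation I γ A) (m : Fin k) (j : Fin n) :
    ordD A m.castSucc (I m) ≤ ordD A m.castSucc j := by
  by_cases hj : j = I m
  · rw [hj]
  · rw [h.ordD_quot m hj]
    exact le_add_self

/-- The orders of the critical coordinates only depend on the point. -/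
theorem ordD_eq {γ' : ℂ → Fin n → ℂ} {A' : ℂ → Fin (k + 1) → Fin n → ℂ}
    (h : IsProlongation I γ A) (h' : IsProlongation I γ' A') (h0 : A 0 = A' 0)
    (hr : IsRegularAt I A) (hr' : IsRegularAt I A') (l : Fin (k + 1)) :
    ∀ j : Fin k, j.castSucc < l →
      (∀ m : Fin k, j < m → m.castSucc < l → I m ≠ I j ∧ A 0 m.succ (I j) = 0) →
      ordD A l (I j) = ordD A' l (I j) := by
  induction l using Fin.reverseInduction with
  | last =>
    intro j _ hj
    have hc : IsCritical I (A 0) j := fun m hm => hj m hm (Fin.castSucc_lt_last m)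
    have hc' : IsCritical I (A' 0) j := h0 ▸ hc
    have e1 : ordD A (Fin.last k) (I j) = 0 :=
      ((h.coord _ _).deriv.analyticOrderAt_eq_zero).2 (hr.2 j hc)
    have e2 : ordD A' (Fin.last k) (I j) = 0 :=
      ((h'.coord _ _).deriv.analyticOrderAt_eq_zero).2 (hr'.2 j hc')
    rw [e1, e2]
  | cast l ih =>
    intro j hj hcrit
    -- the reference coordinate of this level
    have href : ordD A l.succ (I l) = ordD A' l.succ (I l) :=
      ih l Fin.castSucc_lt_succ (fun m h1 h2 => by
        exfalso
        rw [Fin.lt_def] at h1 h2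
        simp only [Fin.val_castSucc, Fin.val_succ] at h2
        omega)
    by_cases hIj : I l = I j
    · rw [← hIj, ← h.ordD_keep, ← h'.ordD_keep, href]
    · have hne : I j ≠ I l := fun h => hIj h.symm
      by_cases hz : A 0 l.succ (I j) = 0
      · have hz' : A' 0 l.succ (I j) = 0 := by rw [← h0, hz]
        have e1 : ordD A l.succ (I j) = ordD A' l.succ (I j) := by
          refine ih j (lt_trans hj Fin.castSucc_lt_succ) fun m h1 h2 => ?_
          by_cases hml : m = l
          · rw [hml]
            exact ⟨hIj, hz⟩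
          · refine hcrit m h1 ?_
            rw [Fin.lt_def] at h2 ⊢
            simp only [Fin.val_castSucc, Fin.val_succ] at h2 ⊢
            have : (m : ℕ) ≠ l := fun h => hml (Fin.ext h)
            omega
        rw [h.ordD_of_eq l hne hz, h'.ordD_of_eq l hne hz', e1, href]
      · have hz' : A' 0 l.succ (I j) ≠ 0 := by rwa [← h0]
        rw [h.ordD_of_ne l hne hz, h'.ordD_of_ne l hne hz', href]

theorem mult_eq (h : IsProlongation I γ A) (l : Fin k) (hl : l.castSucc = 0) :
    mult γ = ordD A l.succ (I l) + 1 := by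
  have hγ : ∀ i, analyticOrderAt (fun t => γ t i - γ 0 i) 0 = ordD A 0 i + 1 := by
    intro i
    have h1 := (h.coord 0 i).analyticOrderAt_deriv_add_one
    rw [ordD, h1]
    refine analyticOrderAt_congr ?_
    have h2 := h.base.self_of_nhds
    filter_upwards [h.base] with t ht
    rw [ht, h2]
  have hle := h.ordD_le l
  rw [hl] at hle
  have hk := h.ordD_keep l
  rw [hl] at hk
  rw [hk]
  unfold mult
  apply le_antisymm
  · exact (iInf_le _ (I l)).trans (hγ (I l)).le
  · refine le_iInf fun i => ?_
    rw [hγ i]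
    gcongr
    exact hle i

end Proof

/-- **The multiplicity is well defined.** For every `n ≥ 2`, `k ≥ 1` and every point `p` of the
Monster tower `P^k(n)`, given in a chart `I`, all germs in `Germ(p)` have the same multiplicity. -/
theorem result (n k : ℕ) (_hn : 2 ≤ n) (hk : 1 ≤ k) (I : Fin k → Fin n)
    (p : Fin (k + 1) → Fin n → ℂ) (_hp : p ∈ chart I) (γ γ' : ℂ → Fin n → ℂ)
    (hγ : γ ∈ Germ I p) (hγ' : γ' ∈ Germ I p) : mult γ = mult γ' := by
  obtain ⟨-, -, A, hA, hA0, hAr⟩ := hγ
  obtain ⟨-, -, A', hA', hA0', hAr'⟩ := hγ'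
  obtain ⟨k, rfl⟩ : ∃ l, k = l + 1 := ⟨k - 1, by omega⟩
  rw [mult_eq hA 0 rfl, mult_eq hA' 0 rfl]
  congr 1
  refine ordD_eq hA hA' (hA0.trans hA0'.symm) hAr hAr' (Fin.succ 0) 0 Fin.castSucc_lt_succ ?_
  intro m h1 h2
  exfalso
  rw [Fin.lt_def] at h1 h2
  simp only [Fin.val_castSucc, Fin.val_succ] at h2
  omega

end Pool.Agent.Results.MP_32880b_ag.MultiplicityWellDefined
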